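import Pool.Agent.Helper310_Dom.Final

/-!
# Repeated roots of Stanley's domino denominators and primitive parts of Pell numbers

The definitions used in the statement are in `Pool.Agent.Helper310_Dom.Defs`.
-/

namespace Pool.Agent.Results.MP_baf44c_co.PellCriterion

open Pool.Agent.Helper310_Dom

/-- If Stanley's denominator `Q_k` has a repeated root, then there are `1 ≤ i < j ≤ ⌊k/2⌋` such
that `(1 + cos² (iπ/(k+1))) (1 + cos² (jπ/(k+1)))` is a square in the field `ℚ(cos (π/(k+1)))`,
and the primitive parts of the Pell numbers with the indices `(k+1)/gcd (i, k+1)` and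
`(k+1)/gcd (j, k+1)`, both at least `3`, are squares up to primes dividing `2 (k+1)`. -/
theorem result (k : ℕ) (h : HasRepeatedRoot k) : ∃ i j : ℕ, 1 ≤ i ∧ i < j ∧ j ≤ k / 2 ∧
      (∃ g ∈ IntermediateField.adjoin ℚ {Real.cos (Real.pi / (k + 1))},
        g ^ 2 = (1 + Real.cos (i * Real.pi / (k + 1)) ^ 2) *
          (1 + Real.cos (j * Real.pi / (k + 1)) ^ 2)) ∧
      3 ≤ (k + 1) / Nat.gcd i (k + 1) ∧
      PrimSquareAway (2 * (k + 1)) ((k + 1) / Nat.gcd i (k + 1)) ∧
      3 ≤ (k + 1) / Nat.gcd j (k + 1) ∧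
      PrimSquareAway (2 * (k + 1)) ((k + 1) / Nat.gcd j (k + 1)) :=
  pell_criterion_full h

end Pool.Agent.Results.MP_baf44c_co.PellCriterion
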