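import Pool.Agent.Helper310_Dom.Seven

/-!
# Stanley's domino denominators without repeated roots: `k + 1 = 7 ^ b`

The definitions used in the statement are in `Pool.Agent.Helper310_Dom.Defs`.
-/

namespace Pool.Agent.Results.MP_baf44c_co.SevenPower

open Pool.Agent.Helper310_Dom

/-- Stanley's denominator `Q_k` has no repeated root if `k + 1` is a power of seven. -/
theorem result (k b : ℕ) (hk : k + 1 = 7 ^ b) : ¬ HasRepeatedRoot k :=
  no_repeated_seven hk

end Pool.Agent.Results.MP_baf44c_co.SevenPower
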