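import Pool.Agent.Helper310_Dom.SixMain

/-!
# Stanley's domino denominators without repeated roots: `k + 1 = 3 ^ a * q ^ b`, `2 * 3 ^ a * q ^ b`

The definitions used in the statement are in `Pool.Agent.Helper310_Dom.Defs`.
-/

namespace Pool.Agent.Results.MP_baf44c_co.ThreeAndPrime

open Pool.Agent.Helper310_Dom

/-- Stanley's denominator `Q_k` has no repeated root in the following two cases, `q` a prime.

* `k + 1 = 3 ^ a * q ^ b`, `q ≠ 3`, `q ≡ ± 3 (mod 8)`, and `q ≡ 1 (mod 3)` or `q` divides none of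
  the Pell numbers with the indices `3 ^ x`, `x ≤ a`.
* `k + 1 = 2 * 3 ^ a * q ^ b`, and `q ≡ 13 (mod 24)`, or `q ≡ 11 (mod 24)` and `q` divides none of
  the Pell numbers with the indices `2 * 3 ^ x`, `x ≤ a`. -/
theorem result (k q a b : ℕ) (hq : q.Prime)
    (h : (k + 1 = 3 ^ a * q ^ b ∧ q ≠ 3 ∧ (q % 8 = 3 ∨ q % 8 = 5) ∧
        (q % 3 = 1 ∨ ∀ x ≤ a, ¬ q ∣ pell (3 ^ x))) ∨
      (k + 1 = 2 * 3 ^ a * q ^ b ∧
        (q % 24 = 13 ∨ (q % 24 = 11 ∧ ∀ x ≤ a, ¬ q ∣ pell (2 * 3 ^ x))))) :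
    ¬ HasRepeatedRoot k := by
  rcases h with ⟨hk, hq3, hq8, hd⟩ | ⟨hk, hd⟩
  · exact no_repeated_three_q' hq hq8 hq3 hd hk
  · exact no_repeated_six_q hq hd hk

end Pool.Agent.Results.MP_baf44c_co.ThreeAndPrime
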