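import Pool.Agent.Helper310_Dom.Smooth

/-!
# Stanley's domino denominators without repeated roots: `k + 1 = 2 ^ a * q ^ b`

The definitions used in the statement are in `Pool.Agent.Helper310_Dom.Defs`.
-/

namespace Pool.Agent.Results.MP_baf44c_co.TwoPrimes

open Pool.Agent.Helper310_Dom

/-- Stanley's denominator `Q_k` has no repeated root if `k + 1 = 2 ^ a * q ^ b` for a prime
`q ≡ ± 3 (mod 8)`, provided that `a ≤ 1`, or `q = 3`, or `q = 5`, or `q = 29`, or the
half-companion Pell numbers with the indices `2 ^ c`, `1 ≤ c < a`, are quadratic non-residues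
modulo `q`. (With `b = 0` this covers all powers of two.) -/
theorem result (k q a b : ℕ) (hq : q.Prime) (hq8 : q % 8 = 3 ∨ q % 8 = 5)
    (h : a ≤ 1 ∨ q = 3 ∨ q = 5 ∨ q = 29 ∨
      ∀ c, 1 ≤ c → c < a → jacobiSym (halfPell (2 ^ c)) q = -1)
    (hk : k + 1 = 2 ^ a * q ^ b) : ¬ HasRepeatedRoot k := by
  rcases h with h | rfl | rfl | rfl | h
  · exact no_repeated_two_q hq hq8 (fun c h1 h2 => by omega) hk
  · exact no_repeated_two_three hk
  · exact no_repeated_five hk
  · exact no_repeated_29 hk
  · exact no_repeated_two_q hq hq8 h hk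

end Pool.Agent.Results.MP_baf44c_co.TwoPrimes
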